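import Pool.Agent.Helper42.GW.St

/-!
# Gilbert-Pollak, chapter COR, word level rules: forget, join, the 2-gon
-/

set_option autoImplicit false

namespace Pool.Agent.Helper11.GW

open Pool.Agent.Helper18.GP Pool.Agent.Helper62.GP Pool.Agent.Helper42.GW Relation Classical

private theorem marks {N : ℕ} (p : It → Bool) : ∀ (l : List (Fin N)) (w : List It), l.Nodup →
    l.length = w.length → ∃ B : Finset (Fin N), (∀ v ∈ B, v ∈ l) ∧
      List.Forall₂ (fun v j => v ∈ B ↔ p j = true) l w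
  | [], [], _, _ => ⟨∅, by simp, List.Forall₂.nil⟩
  | [], _ :: _, _, h => by simp at h
  | _ :: _, [], _, h => by simp at h
  | v :: l, j :: w, hn, h => by
    rw [List.nodup_cons] at hn
    obtain ⟨B, hB, hF⟩ := marks p l w hn.2 (by simpa using h)
    by_cases hj : p j = true
    · refine ⟨insert v B, ?_, ?_⟩
      · intro u hu
        rcases Finset.mem_insert.1 hu with rfl | hu
        · simp
        · exact List.mem_cons_of_mem _ (hB u hu)
      · refine List.Forall₂.cons (by simp [hj]) ?_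
        refine (List.forall₂_iff_get.2 ⟨hF.length_eq, fun i h1 h2 => ?_⟩)
        have hi := (List.forall₂_iff_get.1 hF).2 i h1 h2
        have hne : l.get ⟨i, h1⟩ ≠ v := fun e => hn.1 (e ▸ List.get_mem _ _)
        rw [Finset.mem_insert, ← hi]
        exact or_iff_right hne
    · refine ⟨B, fun u hu => List.mem_cons_of_mem _ (hB u hu), ?_⟩
      refine List.Forall₂.cons ?_ hF
      constructor
      · intro hv
        exact absurd (hB v hv) hn.1
      · intro hh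
        exact absurd hh hj

theorem wForget_thm (hLn : stLnP) : wForget := by
  intro w w' c₁ c₂ c₁' c₂' hc1 hc2 hS hQ
  obtain ⟨N, V, G, P, B₁, B₂, hT, hSt, hB1, hB2, hF, hL1, hL2⟩ := hQ
  have hL := hLn N V G P hT
  obtain ⟨len1, f1⟩ := List.forall₂_iff_get.1 hF
  obtain ⟨len2, f2⟩ := List.forall₂_iff_get.1 hS
  have hnd : (V.sort (· ≤ ·)).Nodup := Finset.sort_nodup V (· ≤ ·)
  obtain ⟨D₁, hD1, hF1⟩ := marks It.m (V.sort (· ≤ ·)) w' hnd (len1.trans len2)
  obtain ⟨D₂, hD2, hF2⟩ := marks It.n (V.sort (· ≤ ·)) w' hnd (len1.trans len2)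
  obtain ⟨len3, f3⟩ := List.forall₂_iff_get.1 hF1
  obtain ⟨len4, f4⟩ := List.forall₂_iff_get.1 hF2
  have hsub1 : D₁ ⊆ B₁ := by
    intro v hv
    obtain ⟨k, hk⟩ := List.mem_iff_get.1 (hD1 v hv)
    have e3 := f3 k.1 k.2 (len3 ▸ k.2)
    have e1 := f1 k.1 k.2 (len1 ▸ k.2)
    have e2 := f2 k.1 (len1 ▸ k.2) (len3 ▸ k.2)
    have hk' : (V.sort (· ≤ ·)).get ⟨k.1, k.2⟩ = v := hk
    rw [hk'] at e3 e1
    exact e1.2.2.1.2 (e2.2.2.1 (e3.1 hv))
  have hsub2 : D₂ ⊆ B₂ := by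
    intro v hv
    obtain ⟨k, hk⟩ := List.mem_iff_get.1 (hD2 v hv)
    have e3 := f4 k.1 k.2 (len4 ▸ k.2)
    have e1 := f1 k.1 k.2 (len1 ▸ k.2)
    have e2 := f2 k.1 (len1 ▸ k.2) (len4 ▸ k.2)
    have hk' : (V.sort (· ≤ ·)).get ⟨k.1, k.2⟩ = v := hk
    rw [hk'] at e3 e1
    exact e1.2.2.2.2 (e2.2.2.2 (e3.1 hv))
  refine ⟨N, V, G, P, D₁, D₂, hT, hSt, hsub1.trans hB1, hsub2.trans hB2, ?_,
    (hL.mono B₁ hB1 D₁ hsub1).trans (hL1.trans hc1),
    (hL.mono B₂ hB2 D₂ hsub2).trans (hL2.trans hc2)⟩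
  refine List.forall₂_iff_get.2 ⟨len1.trans len2, fun i h1 h2 => ?_⟩
  have e1 := f1 i h1 (len1 ▸ h1)
  have e2 := f2 i (len1 ▸ h1) h2
  refine ⟨e1.1.trans e2.1.symm, fun α hα => ?_, f3 i h1 h2, f4 i h1 h2⟩
  rcases e2.2.1 with h | h
  · exact e1.2.1 α (h ▸ hα)
  · rw [h] at hα
    cases hα

private theorem ln_empty (hLn : stLnP) {N : ℕ} {V : Finset (Fin N)} {G : SimpleGraph (Fin N)}
    {P : Fin N → ℂ} (hT : IsTri V G) {a : Fin N} (ha : a ∈ V) : Ln V G P ∅ ≤ 0 := by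
  have hL := hLn N V G P hT
  rw [← hL.sing a ha]
  exact hL.mono {a} (by simpa using ha) ∅ (Finset.empty_subset _)

theorem wJoin_thm (hLn : stLnP) : wJoin := by
  intro w c₁ c₂ hw hQ
  obtain ⟨N, V, G, P, B₁, B₂, hT, hSt, hB1, hB2, hF, hL1, hL2⟩ := hQ
  have hL := hLn N V G P hT
  obtain ⟨len1, f1⟩ := List.forall₂_iff_get.1 hF
  obtain ⟨i, hi, him, hin⟩ := hw
  obtain ⟨k, hk⟩ := List.mem_iff_get.1 hi
  have hk0 : k.1 < (V.sort (· ≤ ·)).length := by
    rw [len1]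
    exact k.2
  have e1 := f1 k.1 hk0 k.2
  have hk' : w.get ⟨k.1, k.2⟩ = i := hk
  rw [hk'] at e1
  set v := (V.sort (· ≤ ·)).get ⟨k.1, hk0⟩ with hv
  have hv1 : v ∈ B₁ := e1.2.2.1.2 him
  have hv2 : v ∈ B₂ := e1.2.2.2.2 hin
  refine ⟨N, V, G, P, B₁ ∪ B₂, ∅, hT, hSt, Finset.union_subset hB1 hB2, Finset.empty_subset _, ?_,
    (hL.sub B₁ hB1 B₂ hB2 ⟨v, Finset.mem_inter.2 ⟨hv1, hv2⟩⟩).trans (add_le_add hL1 hL2),
    ln_empty hLn hT (hB1 hv1)⟩
  rw [List.forall₂_map_right_iff]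
  refine hF.imp fun u j hj => ?_
  refine ⟨hj.1, hj.2.1, ?_, ?_⟩
  · rw [Finset.mem_union, hj.2.2.1, hj.2.2.2]
    simp
  · simp

private theorem ang_zero {N : ℕ} (V : Finset (Fin N)) (G : SimpleGraph (Fin N)) (P : Fin N → ℂ)
    (v : Fin N) (h : ∀ a b c : Fin N, ¬ Ccw a b c) : ang V G P v = 0 := by
  unfold ang
  refine Finset.sum_eq_zero fun e he => ?_
  unfold tris at he
  rw [Finset.mem_filter] at he
  exact absurd he.2.1 (h _ _ _)

theorem wTwo_thm (hMet : stMet) (hLn : stLnP) : wTwo := by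
  intro x y
  have hccw : ∀ a b c : Fin 2, ¬ Ccw a b c := by
    intro a b c h
    unfold Ccw cyc at h
    revert h
    fin_cases a <;> fin_cases b <;> fin_cases c <;> simp
  have hT : IsTri (Finset.univ : Finset (Fin 2)) ⊤ := by
    refine ⟨?_, ?_⟩
    · intro a _ b _ c _ d _ _ _ h
      rcases h with h | h
      · exact hccw _ _ _ h.1
      · exact hccw _ _ _ h.1
    · intro a _ b _ hab h
      exact absurd ((SimpleGraph.top_adj a b).2 hab) h
  set P : Fin 2 → ℂ := ![y, x] with hP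
  have hSt : St (Finset.univ : Finset (Fin 2)) ⊤ P := by
    intro a _ b _ c _ h
    exact absurd h (hccw _ _ _)
  have hm := hMet 2 Finset.univ ⊤ P hT
  have hdl : ∀ v : Fin 2, dl v ∈ Pts (Finset.univ : Finset (Fin 2)) ⊤ := by
    intro v
    refine ⟨fun u => ?_, ?_, fun _ _ => Finset.mem_univ _, fun a b _ _ hab =>
      (SimpleGraph.top_adj a b).2 hab⟩
    · unfold dl
      rw [Pi.single_apply]
      split_ifs <;> norm_num
    · unfold dl
      simp
  have hdev : ∀ v : Fin 2, dev P (dl v) = P v := by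
    intro v
    unfold dev dl
    rw [Finset.sum_eq_single v]
    · simp
    · intro b _ hb
      rw [Pi.single_eq_of_ne hb]
      simp
    · intro h
      exact absurd (Finset.mem_univ v) h
  have hsh : Sh (⊤ : SimpleGraph (Fin 2)) (dl 0) (dl 1) := fun a b _ _ hab =>
    (SimpleGraph.top_adj a b).2 hab
  have hd : dK Finset.univ ⊤ P (dl 0) (dl 1) = ‖y - x‖ := by
    rw [hm.sh _ (hdl 0) _ (hdl 1) hsh, hdev, hdev]
    rfl
  refine ⟨2, Finset.univ, ⊤, P, Finset.univ, ∅, hT, hSt, Finset.Subset.refl _,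
    Finset.empty_subset _, ?_, ?_, ln_empty hLn hT (Finset.mem_univ (0 : Fin 2))⟩
  · have hs : (Finset.univ : Finset (Fin 2)).sort (· ≤ ·) = [0, 1] :=
      (Fin.sort_univ 2).trans (by decide)
    rw [hs]
    refine List.Forall₂.cons ⟨rfl, ?_, by simp, by simp⟩ (List.Forall₂.cons ⟨rfl, ?_, by simp,
      by simp⟩ List.Forall₂.nil)
    · intro α hα
      have hα' : α = 0 := by
        have := Option.some.inj hα
        exact this.symm
      rw [hα']
      exact ang_zero _ _ _ _ hccw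
    · intro α hα
      cases hα
  · refine csInf_le ⟨0, ?_⟩ ⟨[(dl 0, dl 1)], ?_, ?_, ?_⟩
    · rintro r ⟨E, h1, -, rfl⟩
      unfold nlen
      refine List.sum_nonneg ?_
      intro t ht
      rw [List.mem_map] at ht
      obtain ⟨e, he, rfl⟩ := ht
      exact hm.nonneg _ (h1 e he).1 _ (h1 e he).2
    · intro e he
      rw [List.mem_singleton] at he
      rw [he]
      exact ⟨hdl 0, hdl 1⟩
    · have h01 : EqvGen (fun u v => (u, v) ∈ [((dl 0 : Fin 2 → ℝ), (dl 1 : Fin 2 → ℝ))])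
          (dl 0) (dl 1) := EqvGen.rel _ _ (by simp)
      rintro _ ⟨a, -, rfl⟩ _ ⟨b, -, rfl⟩
      fin_cases a <;> fin_cases b
      · exact EqvGen.refl _
      · exact h01
      · exact h01.symm
      · exact EqvGen.refl _
    · unfold nlen
      simp only [List.map_cons, List.map_nil, List.sum_cons, List.sum_nil, add_zero]
      rw [hd, norm_sub_rev]

end Pool.Agent.Helper11.GW
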